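import Pool.Agent.Q60.MU.Fields

/-! Iwasawa's conjecture: detection of `μ = 0` by subfields, and the reduction to fields `ℚ(v)`
generated by a vector in a simple representation over `𝔽_p`. -/

set_option autoImplicit false

namespace Pool.Agent.Results.MP_a4986b_nt.DetectingSubfields

open Pool.Agent.Q60.MU IntermediateField

theorem result (p : ℕ) [Fact p.Prime] (R : ℕ → IntermediateField ℚ Qb)
    (hR : ∀ m, FiniteDimensional ℚ (R m)) (hRn : ∀ m, IsGalois ℚ (R m)) (hd : FinDec R) :
    -- (A) detecting subfields of a Galois extension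
    (∀ N : IntermediateField ℚ Qb, FiniteDimensional ℚ N → IsGalois ℚ N →
      ∀ 𝓔 : Set (IntermediateField ℚ Qb), Detecting p N 𝓔 → (∀ E ∈ 𝓔, MuZero p R E) →
      ∀ F : IntermediateField ℚ Qb, F ≤ N → MuZero p R F) ∧
    -- (B) the reduction of the conjecture to the fields generated by a vector
    ((∀ F : IntermediateField ℚ Qb, FiniteDimensional ℚ F → MuZero p R F) ↔
      ∀ F : IntermediateField ℚ Qb, IsVectorField p F → ¬ p ∣ Module.finrank ℚ F →
        MuZero p R F) := by
  refine ⟨fun N hN hNn 𝓔 hdet hmu F hF =>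
    field_detect p R hR hRn hd N hN hNn 𝓔 hdet.1 hdet.2 hmu F hF, ?_⟩
  rw [field_reduction p R hR hRn hd]
  constructor
  · rintro h F ⟨S, i1, i2, i3, τ, v, hs, hN, hv, rfl⟩ hp
    exact h S τ hs hN v hv hp
  · intro h S _ _ _ τ hs hN v hv hp
    exact h _ ⟨S, inferInstance, inferInstance, inferInstance, τ, v, hs, hN, hv, rfl⟩ hp

end Pool.Agent.Results.MP_a4986b_nt.DetectingSubfields
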