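import Pool.Agent.Q60.MU.Explicit

/-! An explicit two-sided comparison of the orders of the class groups modulo `p` of a Galois
extension `N/F` of number fields and of a detecting family of intermediate fields. -/

set_option autoImplicit false

namespace Pool.Agent.Results.MP_a4986b_nt.ExplicitBound

open Pool.Agent.Q60.MU IntermediateField

theorem result (p : ℕ) [Fact p.Prime] (F N : IntermediateField ℚ Qb) (n : ℕ)
    (hG : GaloisOfDegree F N n) (𝓔 : Finset (IntermediateField ℚ Qb))
    (hdet : DetectingForms p F N 𝓔) (t : ℕ) (ht : RamLe F N t) (C : ℕ) :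
    ((∀ E ∈ 𝓔, DegLe p E C) → DegLe p N ((n ^ (n ^ 3 + n * t + 2) * C) ^ (n * 𝓔.card))) ∧
    (DegLe p N C → ∀ E : IntermediateField ℚ Qb, F ≤ E → E ≤ N → DegLe p E (C * n)) := by
  obtain ⟨hN, hFN, hNn, hn⟩ := hG
  have hF : FiniteDimensional ℚ F :=
    Submodule.finiteDimensional_of_le (S₁ := Subalgebra.toSubmodule F.toSubalgebra)
      (S₂ := Subalgebra.toSubmodule N.toSubalgebra) hFN
  have hc : n ^ (n ^ 3 + n * t + 2) = cst n (n * t) := by
    unfold cst
    ring
  refine ⟨fun hC => ?_, fun hC E hFE hEN => ?_⟩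
  · rw [hc]
    exact explicit p F N hF hN hFN hNn hn 𝓔 hdet ht hC
  · have hEd : FiniteDimensional ℚ E :=
      Submodule.finiteDimensional_of_le (S₁ := Subalgebra.toSubmodule E.toSubalgebra)
        (S₂ := Subalgebra.toSubmodule N.toSubalgebra) hEN
    have hle : N.fixingSubgroup ≤ E.fixingSubgroup := fixingSubgroup_le hEN
    have hle2 : E.fixingSubgroup ≤ F.fixingSubgroup := fixingSubgroup_le hFE
    have h1 := Subgroup.relIndex_mul_relIndex _ _ _ hle hle2
    have h2 := Subgroup.relIndex_mul_index (hle.trans hle2)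
    have hN0 := index_ne_zero' N
    have hF0 := index_ne_zero' F
    have hidx : N.fixingSubgroup.relIndex F.fixingSubgroup = n := by
      rw [finrank_eq_fixingSubgroup_index, finrank_eq_fixingSubgroup_index, ← h2] at hn
      exact Nat.eq_of_mul_eq_mul_right (Nat.pos_of_ne_zero hF0) hn
    have hn0 : n ≠ 0 := by
      intro h
      rw [hidx, h, zero_mul] at h2
      exact hN0 h2.symm
    rw [hidx] at h1
    have h3 : N.fixingSubgroup.relIndex E.fixingSubgroup ≠ 0 := by
      intro h
      rw [h, zero_mul] at h1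
      exact hn0 h1.symm
    have h4 : E.fixingSubgroup.relIndex F.fixingSubgroup ≠ 0 := by
      intro h
      rw [h, mul_zero] at h1
      exact hn0 h1.symm
    rw [← rankLe_iff] at hC ⊢
    refine (RankLe.of_le hle N.fixingSubgroup_isOpen h3 hC).mono (Nat.mul_le_mul_left _ ?_)
    rw [← h1]
    exact Nat.le_mul_of_pos_right _ (Nat.pos_of_ne_zero h4)

end Pool.Agent.Results.MP_a4986b_nt.ExplicitBound
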