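import Pool.Agent.Q49.MU.Basic

/-!
# Iwasawa's μ-conjecture: fields of degree prime to p and a single Galois representation

Fix an odd prime `p`. For a number field `F` let `X F` say that `X(F_cyc)` is finitely generated over
`ℤ_p`. Let `T₀` be a nonzero free `ℤ_p`-module of finite rank with a continuous action of the Galois group of
a number field `K₀`, ramified at finitely many places (for instance the Tate module of an elliptic
curve), and for a number field `K` with an embedding `f` of `K₀` let `A K f` say that the Iwasawa cohomology
group `H²_Iw(O_{K,S}, T₀)` over `K_cyc` is finitely generated over `ℤ_p` (for one, equivalently every,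
large enough finite set `S`). For the Tate module of an elliptic curve this is Conjecture A of Coates and
Sujatha for the curve over `K`.

**Theorem.** Let `K₁` be a number field, and let `K₂` be a number field with an embedding `i` of `K₀` which
contains the `p`-th roots of unity and such that the Galois group of `K₂` acts trivially on `T₀/p`. The
following are equivalent.

1. Q1 for `p`: `X F` holds for all number fields `F`.
2. `X K` holds for all finite extensions `K` of `K₁` of degree prime to `p`.
3. `A K f` holds for all number fields `K` which contain `K₀`.
4. `A K` holds for all finite extensions `K` of `K₂` of degree prime to `p`.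

So the conjecture for all number fields is equivalent to Conjecture A for a single elliptic curve over the
extensions of degree prime to `p` of its field of `p`-division points. Known facts (hypotheses): `mono`: the
norm map; `pext`: Iwasawa 1973, for Galois extensions of `p`-power degree; `devissage`: by Nakayama's lemma
the condition `A K f` says that `H²_Iw(O_{K,S}, T₀/p)` is finite. This functor is right exact on finite
modules, and `T₀/p` is a quotient of a direct sum of copies of the module induced from `μ_p` over `L`, for
`L = K(T₀/p, μ_p)`, so that the condition follows from the finiteness of `H²_Iw(O_{L,S}, μ_p)`, which is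
equivalent to `X L` by Kummer theory; `trivial`: over fields containing `K₂`, `T₀/p` is a direct sum of copies
of `μ_p`.
-/

set_option autoImplicit false

namespace Pool.Agent.Results.MP_a4986b_nt.PrimeToP

open Pool.Agent.Q49.MU

/-- The known facts on the Galois representation. -/
structure IsRepresentation (X : (F : Type) → [Field F] → Prop) (K₀ K₂ : Type) [Field K₀] [Field K₂]
    (i : K₀ →+* K₂) (A : (K : Type) → [Field K] → (K₀ →+* K) → Prop) : Prop where
  /-- dévissage -/
  devissage : ∀ (K : Type) [Field K] [NumberField K] (f : K₀ →+* K),
    ∃ (L : Type) (_ : Field L) (_ : NumberField L), X L → A K f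
  /-- trivial action -/
  trivial : ∀ (K : Type) [Field K] [NumberField K] (g : K₂ →+* K), A K (g.comp i) → X K

/-- **Iwasawa's μ-conjecture: exact reductions.** See the explanations above. -/
theorem result (p : ℕ) [Fact p.Prime] (X : (F : Type) → [Field F] → Prop) (mono : Mono X)
    (K₁ : Type) [Field K₁] [NumberField K₁] (K₀ K₂ : Type) [Field K₀] [Field K₂] [NumberField K₂]
    (i : K₀ →+* K₂) (pext₁ : PExt p X K₁) (pext₂ : PExt p X K₂)
    (A : (K : Type) → [Field K] → (K₀ →+* K) → Prop) (hA : IsRepresentation X K₀ K₂ i A) :
    List.TFAE [
      ∀ (F : Type) [Field F] [NumberField F], X F,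
      ∀ (K : Type) [Field K] [NumberField K] [Algebra K₁ K], ¬ p ∣ Module.finrank K₁ K → X K,
      ∀ (K : Type) [Field K] [NumberField K] (f : K₀ →+* K), A K f,
      ∀ (K : Type) [Field K] [NumberField K] [Algebra K₂ K], ¬ p ∣ Module.finrank K₂ K →
        A K ((algebraMap K₂ K).comp i)] := by
  tfae_have 1 → 2 := fun h K _ _ _ _ => h K
  tfae_have 2 → 1 := fun h F _ _ => of_prime_to_p p mono K₁ pext₁ h F
  tfae_have 1 → 3 := by
    intro h K _ _ f
    obtain ⟨L, _, _, h1⟩ := hA.devissage K f
    exact h1 (h L)
  tfae_have 3 → 4 := fun h K _ _ _ _ => h K _
  tfae_have 4 → 1 := fun h F _ _ => of_prime_to_p p mono K₂ pext₂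
    (fun K _ _ _ hK => hA.trivial K (algebraMap K₂ K) (h K hK)) F
  tfae_finish

end Pool.Agent.Results.MP_a4986b_nt.PrimeToP
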