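import Pool.Agent.Q60.MU.RealCM

/-!
# Iwasawa's conjecture `μ = 0`: fields with a real place and CM fields

`R 0, R 1, ...` is the tower of the layers of the cyclotomic `ℤ_p`-extension of `ℚ` (any tower of
finite Galois extensions of `ℚ` with the property `FinDec` is allowed); `c` is complex conjugation.
-/

set_option autoImplicit false

namespace Pool.Agent.Results.MP_a4986b_nt.RealAndCM

open Pool.Agent.Q60.MU IntermediateField Module

theorem result (p : ℕ) [Fact p.Prime] (hp : p ≠ 2) (R : ℕ → IntermediateField ℚ Qb)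
    (hR : ∀ m, FiniteDimensional ℚ (R m)) (hRn : ∀ m, IsGalois ℚ (R m)) (hd : FinDec R)
    (c : Gal(Qb/ℚ)) (hc : c * c = 1) :
    -- one Galois extension `N` of `ℚ`
    (∀ N : IntermediateField ℚ Qb, FiniteDimensional ℚ N → IsGalois ℚ N →
      (MuZero p R N ↔ MuZero p R (realPart c N) ∧ MuZero p R (cmPart c N))) ∧
    -- all number fields
    ((∀ F : IntermediateField ℚ Qb, FiniteDimensional ℚ F → MuZero p R F) ↔
      (∀ F : IntermediateField ℚ Qb, FiniteDimensional ℚ F → (∀ x ∈ F, c x = x) →
        MuZero p R F) ∧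
      ∀ E : IntermediateField ℚ Qb, CMField c E → ¬ p ∣ finrank ℚ E → MuZero p R E) := by
  refine ⟨fun N hN hNn => mu_real_cm p R hR hRn hd c hc N hN hNn, fun h => ?_, fun h => ?_⟩
  · exact ⟨fun F hF _ => h F hF, fun E hE _ => h E hE.1⟩
  · exact mu_all p hp R hR hRn hd c hc h.1 h.2

end Pool.Agent.Results.MP_a4986b_nt.RealAndCM
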